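import Pool.Agent.W387.R.Stm

/-!
The presentation of a trivial HNN extension.
-/

set_option autoImplicit false

namespace Pool.Agent.W589.RT

open Pool.Agent.W387 Pool.Agent.W387.RA

variable {m : ℕ}

/-- homomorphisms out of a presented group. -/
def pgLift {n : ℕ} (R : Finset (FreeGroup (Fin n))) {K : Type} [Group K]
    (f : FreeGroup (Fin n) →* K) (h : ∀ r ∈ R, f r = 1) : PG R →* K :=
  QuotientGroup.lift (Subgroup.normalClosure (↑R : Set (FreeGroup (Fin n)))) f (by
    have h1 : Subgroup.normalClosure (↑R : Set (FreeGroup (Fin n))) ≤ f.ker :=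
      Subgroup.normalClosure_le_normal (fun r hr => h r hr)
    intro x hx
    exact h1 hx)

lemma pgLift_pg {n : ℕ} (R : Finset (FreeGroup (Fin n))) {K : Type} [Group K]
    (f : FreeGroup (Fin n) →* K) (h : ∀ r ∈ R, f r = 1) (w : FreeGroup (Fin n)) :
    pgLift R f h (pg R w) = f w := rfl

lemma pg_rel {n : ℕ} (R : Finset (FreeGroup (Fin n))) (r : FreeGroup (Fin n)) (h : r ∈ R) :
    pg R r = 1 :=
  PresentedGroup.one_of_mem (rels := (↑R : Set (FreeGroup (Fin n)))) h

lemma pg_ext {n : ℕ} {R : Finset (FreeGroup (Fin n))} {K : Type} [Group K] {f g : PG R →* K}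
    (h : ∀ i, f (pg R (FreeGroup.of i)) = g (pg R (FreeGroup.of i))) : f = g :=
  PresentedGroup.ext h

variable (rels Ns : Finset (FreeGroup (Fin m)))

/-- the forward map on the free group. -/
def fw : FreeGroup (Fin (m + 1)) →* TH (subN rels Ns) :=
  FreeGroup.lift (Fin.lastCases (thT (subN rels Ns))
    (fun i => thB (subN rels Ns) (pg rels (FreeGroup.of i))))

lemma fw_of (i : Fin m) : fw rels Ns (FreeGroup.of i.castSucc) =
    thB (subN rels Ns) (pg rels (FreeGroup.of i)) := by
  unfold fw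
  rw [FreeGroup.lift_apply_of, Fin.lastCases_castSucc]

lemma fw_sigma : fw rels Ns sigma = thT (subN rels Ns) := by
  unfold fw sigma
  rw [FreeGroup.lift_apply_of, Fin.lastCases_last]

lemma fw_liftF (w : FreeGroup (Fin m)) :
    fw rels Ns (liftF w) = thB (subN rels Ns) (pg rels w) := by
  have h : (fw rels Ns).comp liftF = (thB (subN rels Ns)).comp (pg rels) := by
    apply FreeGroup.ext_hom
    intro i
    change fw rels Ns (liftF (FreeGroup.of i)) = thB (subN rels Ns) (pg rels (FreeGroup.of i))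
    rw [← fw_of]
    congr 1
  exact DFunLike.congr_fun h w

lemma mem_relsT (r : FreeGroup (Fin (m + 1))) : r ∈ relsT rels Ns ↔
    (∃ s ∈ rels, liftF s = r) ∨ ∃ n ∈ Ns, sigma * liftF n * sigma⁻¹ * (liftF n)⁻¹ = r := by
  unfold relsT
  rw [Finset.mem_union, Finset.mem_image, Finset.mem_image]

/-- the forward map. -/
def Fw : PG (relsT rels Ns) →* TH (subN rels Ns) := pgLift (relsT rels Ns) (fw rels Ns) (by
  intro r hr
  rcases (mem_relsT rels Ns r).1 hr with ⟨s, hs, rfl⟩ | ⟨n, hn, rfl⟩
  · rw [fw_liftF, pg_rel rels s hs, map_one]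
  · rw [map_mul, map_mul, map_mul, map_inv, map_inv, fw_sigma, fw_liftF]
    have h := thB_comm (subN rels Ns) (pg rels n)
      (Subgroup.subset_closure ⟨n, hn, rfl⟩)
    rw [← h.eq]
    simp)

/-- the backward map on the base. -/
def bw0 : PG rels →* PG (relsT rels Ns) := pgLift rels ((pg (relsT rels Ns)).comp liftF) (by
  intro r hr
  exact pg_rel (relsT rels Ns) (liftF r) ((mem_relsT rels Ns _).2 (Or.inl ⟨r, hr, rfl⟩)))

lemma bw0_pg (w : FreeGroup (Fin m)) : bw0 rels Ns (pg rels w) = pg (relsT rels Ns) (liftF w) :=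
  rfl

lemma bw0_comm (z : PG rels) (hz : z ∈ subN rels Ns) :
    Commute (bw0 rels Ns z) (pg (relsT rels Ns) sigma) := by
  have h : subN rels Ns ≤ (Subgroup.centralizer {pg (relsT rels Ns) sigma}).comap
      (bw0 rels Ns) := by
    unfold subN
    rw [Subgroup.closure_le]
    rintro _ ⟨n, hn, rfl⟩
    change bw0 rels Ns (pg rels n) ∈ Subgroup.centralizer {pg (relsT rels Ns) sigma}
    rw [Subgroup.mem_centralizer_singleton_iff, bw0_pg]
    have h1 := pg_rel (relsT rels Ns) (sigma * liftF n * sigma⁻¹ * (liftF n)⁻¹)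
      ((mem_relsT rels Ns _).2 (Or.inr ⟨n, hn, rfl⟩))
    rw [map_mul, map_mul, map_mul, map_inv, map_inv] at h1
    rw [mul_inv_eq_one, mul_inv_eq_iff_eq_mul] at h1
    exact h1.symm
  have h2 := h hz
  rw [Subgroup.mem_comap, Subgroup.mem_centralizer_singleton_iff] at h2
  exact h2

/-- the backward map. -/
def Bw : TH (subN rels Ns) →* PG (relsT rels Ns) :=
  thLift (subN rels Ns) (bw0 rels Ns) (pg (relsT rels Ns) sigma) (bw0_comm rels Ns)

lemma Bw_Fw : (Bw rels Ns).comp (Fw rels Ns) = MonoidHom.id _ := by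
  apply pg_ext
  intro i
  change Bw rels Ns (fw rels Ns (FreeGroup.of i)) = pg (relsT rels Ns) (FreeGroup.of i)
  refine Fin.lastCases ?_ (fun i => ?_) i
  · change Bw rels Ns (fw rels Ns sigma) = _
    rw [fw_sigma]
    unfold Bw
    rw [thLift_T]
    rfl
  · rw [fw_of]
    unfold Bw
    rw [thLift_B, bw0_pg]
    congr 1

lemma Fw_Bw : (Fw rels Ns).comp (Bw rels Ns) = MonoidHom.id _ := by
  apply th_ext
  · have h : (((Fw rels Ns).comp (Bw rels Ns)).comp (thB (subN rels Ns))) =
        thB (subN rels Ns) := by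
      apply pg_ext
      intro i
      change Fw rels Ns (Bw rels Ns (thB (subN rels Ns) (pg rels (FreeGroup.of i)))) = _
      unfold Bw
      rw [thLift_B, bw0_pg]
      exact fw_liftF rels Ns (FreeGroup.of i)
    intro x
    exact DFunLike.congr_fun h x
  · change Fw rels Ns (Bw rels Ns (thT (subN rels Ns))) = thT (subN rels Ns)
    unfold Bw
    rw [thLift_T]
    exact fw_sigma rels Ns

theorem stmTH : StmTH := by
  intro m rels Ns
  exact ⟨MulEquiv.ofBijective (Fw rels Ns) ⟨
    Function.LeftInverse.injective (g := Bw rels Ns)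
      (fun x => DFunLike.congr_fun (Bw_Fw rels Ns) x),
    Function.RightInverse.surjective (g := Bw rels Ns)
      (fun x => DFunLike.congr_fun (Fw_Bw rels Ns) x)⟩⟩

end Pool.Agent.W589.RT
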